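import Pool.Agent.P.MP_4ae480_an.Main

set_option autoImplicit false

open MeasureTheory Set Metric

namespace Pool.Agent.Results.MP_4ae480_an.Amplification

/-- `B` contains a line segment of length one parallel to every direction. -/
def IsBesicovitch {n : ℕ} (B : Set (EuclideanSpace ℝ (Fin n))) : Prop :=
  ∀ v : EuclideanSpace ℝ (Fin n), ‖v‖ = 1 → ∃ p, segment ℝ p (p + v) ⊆ B

/-- For every direction some line parallel to it meets `C` in a set of positive length. -/
def LineThick {n : ℕ} (C : Set (EuclideanSpace ℝ (Fin n))) : Prop :=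
  ∀ v : EuclideanSpace ℝ (Fin n), ‖v‖ = 1 → ∃ p, 0 < volume {s : ℝ | p + s • v ∈ C}

/-- A line-thick set of Hausdorff dimension less than `n` yields a compact Besicovitch set whose
`δ`-neighbourhoods have volume at most `exp (-(log (1/δ))^γ)` for arbitrarily small `δ`, for
every `γ < 1/2`. -/
theorem result (n : ℕ) (C : Set (EuclideanSpace ℝ (Fin n))) (hC : LineThick C)
    (hdim : dimH C < n) :
    ∃ B : Set (EuclideanSpace ℝ (Fin n)), IsCompact B ∧ IsBesicovitch B ∧
      ∀ γ : ℝ, 0 < γ → γ < 1 / 2 → ∀ δ₀ : ℝ, 0 < δ₀ → ∃ δ : ℝ, 0 < δ ∧ δ < δ₀ ∧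
        volume (thickening δ B) ≤ ENNReal.ofReal (Real.exp (-(Real.log (1 / δ) ^ γ))) := by
  rcases n with _ | m
  · simp at hdim
  obtain ⟨B, h1, h2, h3⟩ := Pool.Agent.P.MP_4ae480_an.main_euclid hdim hC
  refine ⟨B, h1, fun v hv => ?_, h3⟩
  obtain ⟨p, hp⟩ := h2 v hv
  refine ⟨p, ?_⟩
  rw [segment_eq_image']
  rintro _ ⟨τ, hτ, rfl⟩
  simpa using hp τ hτ

end Pool.Agent.Results.MP_4ae480_an.Amplification
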